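import Mathlib

set_option autoImplicit false

namespace Pool.Agent.Results.MP_75529e_al.Neg

variable {R : Type} [NonUnitalNonAssocRing R]

/-- `K` is an ideal of the commutative ring `I`. -/
def IdealOf (K I : AddSubgroup R) : Prop := K ≤ I ∧ ∀ a ∈ I, ∀ u ∈ K, a * u ∈ K

/-- The ring `I` has no nonzero ideal with zero multiplication. -/
def Semiprime (I : AddSubgroup R) : Prop :=
  ∀ K, IdealOf K I → (∀ a ∈ K, ∀ b ∈ K, a * b = 0) → K = ⊥

def E := ZMod 2 × ZMod 2 × ZMod 2

instance : Fintype E := inferInstanceAs (Fintype (ZMod 2 × ZMod 2 × ZMod 2))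
instance : DecidableEq E := inferInstanceAs (DecidableEq (ZMod 2 × ZMod 2 × ZMod 2))
instance ag : AddCommGroup E := inferInstanceAs (AddCommGroup (ZMod 2 × ZMod 2 × ZMod 2))

/-- Basis `a, b, c` with `a b = b a = c`, `a c = c a = a` and all other products zero. -/
instance ring : NonUnitalNonAssocRing E :=
  { ag with
    mul x y := (x.1 * y.2.2 + x.2.2 * y.1, 0, x.1 * y.2.1 + x.2.1 * y.1)
    left_distrib := by decide +kernel
    right_distrib := by decide +kernel
    zero_mul := by decide +kernel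
    mul_zero := by decide +kernel }

def I : AddSubgroup E where
  carrier := {x | x.2.1 = 0}
  add_mem' {a b} := by simp only [Set.mem_setOf_eq]; revert a b; decide +kernel
  zero_mem' := rfl
  neg_mem' {a} := by simp only [Set.mem_setOf_eq]; revert a; decide +kernel

def K : AddSubgroup E where
  carrier := {x | x.2 = 0}
  add_mem' {a b} := by simp only [Set.mem_setOf_eq]; revert a b; decide +kernel
  zero_mem' := rfl
  neg_mem' {a} := by simp only [Set.mem_setOf_eq]; revert a; decide +kernel

def a : E := (1, 0, 0)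

theorem result : ∃ (J : Type) (_ : NonUnitalNonAssocRing J), (∀ x y : J, x * y = y * x) ∧
    (∀ x y : J, ((x * x) * y) * x = (x * x) * (y * x)) ∧ Semiprime (⊤ : AddSubgroup J) ∧
    ∃ I : AddSubgroup J, IdealOf I ⊤ ∧ ¬Semiprime I := by
  refine ⟨E, ring, by decide +kernel, by decide +kernel, fun L hL h => eq_bot_iff.2 fun u hu => ?_,
    I, ⟨le_top, fun _ _ _ _ => rfl⟩, fun h => ?_⟩
  · by_contra h0
    obtain ⟨x, y, z, e⟩ := (by decide +kernel : ∀ u : E, u ≠ 0 → ∃ x y z : E,
      (x * u) * (y * (z * u)) ≠ 0) u h0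
    exact e (h _ (hL.2 x trivial u hu) _ (hL.2 y trivial _ (hL.2 z trivial u hu)))
  · have : a ∈ K := rfl
    rw [h K ⟨fun x hx => congrArg Prod.fst (show x.2 = 0 from hx), fun x hx u hu =>
      (by decide +kernel : ∀ x u : E, x.2.1 = 0 → u.2 = 0 → (x * u).2 = 0) x u hx hu⟩
      fun x hx u hu => (by decide +kernel : ∀ x u : E, x.2 = 0 → u.2 = 0 → x * u = 0) x u hx hu,
      AddSubgroup.mem_bot] at this
    exact absurd this (by decide +kernel)

end Pool.Agent.Results.MP_75529e_al.Neg
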